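import Pool.Agent.MP_81e6aa_pr.Main

/-! Triangle factors in the budget-constrained random graph process with a budget of smaller
order than the hitting time. -/

namespace Pool.Agent.Results.MP_81e6aa_pr.SmallBudget

open Filter Topology Asymptotics Pool.Agent.MP_81e6aa_pr

/-- the orders `e_0, ..., e_(N-1)` of all edges of the complete graph on `n` vertices -/
abbrev EdgeOrder (n : ℕ) : Type := Fin (n.choose 2) ≃ (⊤ : SimpleGraph (Fin n)).edgeSet

/-- the list `e_0, ..., e_i` of the edges revealed up to step `i` -/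
def revealed {n : ℕ} (e : EdgeOrder n) (i : ℕ) : List (Sym2 (Fin n)) :=
  (List.ofFn fun j => (e j : Sym2 (Fin n))).take (i + 1)

/-- the steps `i < t` at which Builder buys the edge `e_i` -/
def purchases {n : ℕ} (t : ℕ) (rule : List (Sym2 (Fin n)) → Bool) (e : EdgeOrder n) :
    Set (Fin (n.choose 2)) :=
  {i | (i : ℕ) < t ∧ rule (revealed e i) = true}

/-- the graph of the purchased edges -/
def builtGraph {n : ℕ} (t : ℕ) (rule : List (Sym2 (Fin n)) → Bool) (e : EdgeOrder n) :
    SimpleGraph (Fin n) :=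
  SimpleGraph.fromEdgeSet ((fun i => (e i : Sym2 (Fin n))) '' purchases t rule e)

/-- `n / 3` vertex-disjoint triangles covering all vertices -/
def HasTriangleFactor {n : ℕ} (G : SimpleGraph (Fin n)) : Prop :=
  ∃ P : Finset (Finset (Fin n)), P.card = n / 3 ∧ (∀ s ∈ P, G.IsNClique 3 s) ∧
    (∀ s ∈ P, ∀ s' ∈ P, s ≠ s' → Disjoint s s') ∧ ∀ v : Fin n, ∃ s ∈ P, v ∈ s

lemma filter_eq : (atTop ⊓ 𝓟 {n : ℕ | 3 ∣ n}) = map (fun m : ℕ => 3 * m) atTop := by
  ext s
  simp only [mem_inf_principal, mem_map, mem_atTop_sets, Set.mem_ofPred_eq, Set.mem_preimage]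
  constructor
  · rintro ⟨a, ha⟩
    exact ⟨a, fun m hm => ha _ (by omega) (dvd_mul_right _ _)⟩
  · rintro ⟨a, ha⟩
    refine ⟨3 * a, fun n hn ⟨m, hm⟩ => ?_⟩
    subst hm
    exact ha m (by omega)

/-- the two descriptions of the edges of the complete graph -/
def phi (n : ℕ) : (⊤ : SimpleGraph (Fin n)).edgeSet ≃ {e : Sym2 (Fin n) // ¬ e.IsDiag} :=
  Equiv.subtypeEquivRight fun e => by simp

/-- the first `t` edges of an order -/
def first {n t : ℕ} (ht : t ≤ n.choose 2) (e : EdgeOrder n) :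
    Fin t ↪ {e : Sym2 (Fin n) // ¬ e.IsDiag} :=
  (Fin.castLEEmb ht).trans (e.trans (phi n)).toEmbedding

lemma first_val {n t : ℕ} (ht : t ≤ n.choose 2) (e : EdgeOrder n) (i : Fin t) :
    (first ht e i).1 = (e (Fin.castLE ht i) : Sym2 (Fin n)) := rfl

lemma ratio_eq {n t : ℕ} (ht : t ≤ n.choose 2)
    (Q : (Fin t ↪ {e : Sym2 (Fin n) // ¬ e.IsDiag}) → Prop) :
    (Nat.card {e : EdgeOrder n // Q (first ht e)} : ℝ) / Nat.card (EdgeOrder n) =
      (Nat.card {σ // Q σ} : ℝ) / Nat.card (Fin t ↪ {e : Sym2 (Fin n) // ¬ e.IsDiag}) := by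
  classical
  have hc : Fintype.card {e : Sym2 (Fin n) // ¬ e.IsDiag} = n.choose 2 := by
    rw [Sym2.card_subtype_not_diag, Fintype.card_fin]
  let e₀ : EdgeOrder n := (Fintype.equivFinOfCardEq hc).symm.trans (phi n).symm
  let ψ : Equiv.Perm {e : Sym2 (Fin n) // ¬ e.IsDiag} ≃ EdgeOrder n :=
    Equiv.equivCongr (e₀.trans (phi n)).symm (phi n).symm
  have hψ : ∀ π, first ht (ψ π) = (first ht e₀).trans π.toEmbedding := by
    intro π
    ext i
    simp [first, ψ]
  have h1 := sum_emb_perm (first ht e₀) (fun σ => ind (Q σ))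
  have h2 : ∑ π : Equiv.Perm {e : Sym2 (Fin n) // ¬ e.IsDiag},
      ind (Q ((first ht e₀).trans π.toEmbedding)) = ∑ e : EdgeOrder n, ind (Q (first ht e)) := by
    rw [← Equiv.sum_comp ψ]
    exact Finset.sum_congr rfl fun π _ => by rw [hψ]
  have : Nonempty (EdgeOrder n) := ⟨e₀⟩
  have : Nonempty (Fin t ↪ {e : Sym2 (Fin n) // ¬ e.IsDiag}) := ⟨first ht e₀⟩
  simp only [Nat.card_eq_fintype_card, Fintype.card_subtype, card_filter_eq_sum_ind]
  rw [div_eq_div_iff (by exact_mod_cast Fintype.card_ne_zero)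
    (by exact_mod_cast Fintype.card_ne_zero), ← h2, ← Fintype.card_congr ψ, h1, mul_comm]

lemma exists_rule {n t : ℕ} (ht : t ≤ n.choose 2)
    (S : (Fin t ↪ {e : Sym2 (Fin n) // ¬ e.IsDiag}) → Finset (Fin t))
    (hS : ∀ (σ σ' : Fin t ↪ {e : Sym2 (Fin n) // ¬ e.IsDiag}) (i : Fin t),
      (∀ j, j ≤ i → σ j = σ' j) → (i ∈ S σ ↔ i ∈ S σ')) :
    ∃ rule : List (Sym2 (Fin n)) → Bool, ∀ e : EdgeOrder n,
      purchases t rule e = Fin.castLE ht '' (S (first ht e) : Set (Fin t)) := by
  classical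
  refine ⟨fun l => decide (∃ (e : EdgeOrder n) (i : Fin t), l = revealed e i ∧
    i ∈ S (first ht e)), fun e => ?_⟩
  ext i
  simp only [purchases, Set.mem_ofPred_eq, decide_eq_true_eq, Set.mem_image, Finset.mem_coe]
  constructor
  · rintro ⟨hi, e', i', h1, h2⟩
    have hl := congrArg List.length h1
    simp only [revealed, List.length_take, List.length_ofFn] at hl
    have hi1 := i.2
    have hi2 := i'.2
    have hii : (i' : ℕ) = i := by omega
    refine ⟨i', (hS _ _ i' fun j hj => ?_).1 h2, Fin.ext hii⟩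
    have hj' : (j : ℕ) ≤ i' := hj
    have h3 := congrArg (fun l => l[(j : ℕ)]?) h1
    simp only [revealed, List.getElem?_take, List.getElem?_ofFn] at h3
    rw [if_pos (by omega), if_pos (by omega), dif_pos (by omega), dif_pos (by omega)] at h3
    exact Subtype.ext (Option.some.inj h3).symm
  · rintro ⟨i', h, rfl⟩
    exact ⟨i'.2, e, i', rfl, h⟩

lemma factor_of_tf {m t : ℕ} (ht : t ≤ (3 * m).choose 2)
    {rule : List (Sym2 (Fin (3 * m))) → Bool} {e : EdgeOrder (3 * m)} {S : Finset (Fin t)}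
    (h : purchases t rule e = Fin.castLE ht '' (S : Set (Fin t))) (hf : TF (first ht e) S) :
    HasTriangleFactor (builtGraph t rule e) := by
  classical
  obtain ⟨P, h1, h2⟩ := hf
  have hG : builtGraph t rule e = SimpleGraph.fromEdgeSet
      ((S.image (fun i : Fin t => (first ht e i).1) : Finset (Sym2 (Fin (3 * m)))) :
        Set (Sym2 (Fin (3 * m)))) := by
    rw [builtGraph, h, Set.image_image, Finset.coe_image]
    rfl
  have hd : ∀ s ∈ P, ∀ s' ∈ P, s ≠ s' → Disjoint s s' := fun s hs s' hs' hne =>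
    Finset.disjoint_left.2 fun v hv hv' => hne ((h2 v).unique ⟨hs, hv⟩ ⟨hs', hv'⟩)
  refine ⟨P, ?_, fun s hs => hG ▸ h1 s hs, hd, fun v => (h2 v).exists⟩
  have h3 : P.biUnion id = Finset.univ :=
    Finset.eq_univ_of_forall fun v => Finset.mem_biUnion.2 (h2 v).exists
  have h4 := Finset.card_biUnion (s := P) (t := id) fun s hs s' hs' hne => hd s hs s' hs' hne
  rw [h3, Finset.card_univ, Fintype.card_fin,
    Finset.sum_congr (f := fun u => (id u).card) (g := fun _ => 3) rfl
      fun s hs => (h1 s hs).card_eq, Finset.sum_const, smul_eq_mul] at h4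
  omega

/-- There are `t = Θ(n^(4/3) (log n)^(1/3))`, `b = o(n^(4/3) (log n)^(1/3))` and a rule that buys
at most `b` of the first `t` edges online such that the purchased graph has a triangle factor
with probability tending to `1` along the multiples of `3`. -/
theorem result : ∃ (t b : ℕ → ℕ) (rule : ∀ n : ℕ, List (Sym2 (Fin n)) → Bool),
    (fun n => (t n : ℝ)) =Θ[atTop ⊓ 𝓟 {n : ℕ | 3 ∣ n}]
      (fun n : ℕ => (n : ℝ) ^ (4 / 3 : ℝ) * Real.log n ^ (1 / 3 : ℝ)) ∧
    (fun n => (b n : ℝ)) =o[atTop ⊓ 𝓟 {n : ℕ | 3 ∣ n}]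
      (fun n : ℕ => (n : ℝ) ^ (4 / 3 : ℝ) * Real.log n ^ (1 / 3 : ℝ)) ∧
    (∀ n, t n ≤ n.choose 2) ∧
    (∀ n (e : EdgeOrder n), (purchases (t n) (rule n) e).ncard ≤ b n) ∧
    Tendsto (fun n : ℕ =>
      (Nat.card {e : EdgeOrder n // HasTriangleFactor (builtGraph (t n) (rule n) e)} : ℝ) /
        Nat.card (EdgeOrder n)) (atTop ⊓ 𝓟 {n : ℕ | 3 ∣ n}) (𝓝 1) := by
  obtain ⟨b, hb, S, hS, hSb, hlim⟩ := main
  have key : ∀ n : ℕ, ∃ rule : List (Sym2 (Fin n)) → Bool,
      (∀ e : EdgeOrder n,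
        (purchases (min (tt (n / 3)) (n.choose 2)) rule e).ncard ≤ b (n / 3)) ∧
      ∀ m, n = 3 * m → tt m ≤ n.choose 2 →
        (Nat.card {σ // TF σ (S m σ)} : ℝ) /
          (Nat.card (Fin (tt m) ↪ {e : Sym2 (Fin (3 * m)) // ¬ e.IsDiag}) : ℝ) ≤
        (Nat.card {e : EdgeOrder n // HasTriangleFactor
          (builtGraph (min (tt (n / 3)) (n.choose 2)) rule e)} : ℝ) / Nat.card (EdgeOrder n) := by
    intro n
    by_cases h : ∃ m, n = 3 * m ∧ tt m ≤ n.choose 2
    · obtain ⟨m, rfl, ht⟩ := h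
      obtain ⟨rule, hr⟩ := exists_rule ht (S m) (hS m)
      rw [show 3 * m / 3 = m by omega, min_eq_left ht]
      refine ⟨rule, fun e => ?_, fun m' hm _ => ?_⟩
      · rw [hr, Set.ncard_image_of_injective _ (Fin.castLE_injective ht), Set.ncard_coe_finset]
        exact hSb m _
      · obtain rfl : m = m' := by omega
        rw [← ratio_eq ht fun σ => TF σ (S m σ)]
        refine div_le_div_of_nonneg_right ?_ (Nat.cast_nonneg _)
        exact_mod_cast Nat.card_le_card_of_injective
          (Subtype.map id fun e he => factor_of_tf ht (hr e) he)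
          (Subtype.map_injective _ Function.injective_id)
    · refine ⟨fun _ => false, fun e => ?_, fun m h1 h2 => absurd ⟨m, h1, h2⟩ h⟩
      simp [purchases]
  choose rule h1 h2 using key
  have hN : ∀ᶠ m in atTop, tt m ≤ (3 * m).choose 2 := by
    have h3 := hlim.eventually (lt_mem_nhds (show (0 : ℝ) < 1 by norm_num))
    filter_upwards [h3] with m hm
    by_contra hc
    have : IsEmpty (Fin (tt m) ↪ {e : Sym2 (Fin (3 * m)) // ¬ e.IsDiag}) := by
      refine Function.Embedding.isEmpty_of_card_lt ?_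
      rw [Sym2.card_subtype_not_diag, Fintype.card_fin, Fintype.card_fin]
      omega
    simp at hm
  have hf : ((fun n : ℕ => (n : ℝ) ^ (4 / 3 : ℝ) * Real.log n ^ (1 / 3 : ℝ)) ∘ fun m => 3 * m) =
      ff := by
    funext m
    rw [ff_eq]
    simp
  have hpos := ff_tend.eventually_gt_atTop 0
  refine ⟨fun n => min (tt (n / 3)) (n.choose 2), fun n => b (n / 3), rule, ?_, ?_,
    fun n => min_le_right _ _, h1, ?_⟩
  · rw [filter_eq]
    constructor
    · rw [isBigO_map, hf]
      refine IsBigO.of_bound 150001 ?_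
      filter_upwards [tt_bounds, hN, hpos] with m hm ht h0
      simp only [Function.comp, show 3 * m / 3 = m by omega, min_eq_left ht, Real.norm_natCast,
        Real.norm_of_nonneg h0.le]
      exact hm.2
    · rw [isBigO_map, hf]
      refine IsBigO.of_bound 1 ?_
      filter_upwards [tt_bounds, hN, hpos] with m hm ht h0
      simp only [Function.comp, show 3 * m / 3 = m by omega, min_eq_left ht, Real.norm_natCast,
        Real.norm_of_nonneg h0.le]
      linarith [hm.1]
  · rw [filter_eq, isLittleO_map, hf]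
    refine (isLittleO_iff_tendsto' ?_).2 ?_
    · filter_upwards [hpos] with m h0 h using absurd h h0.ne'
    · refine hb.congr fun m => ?_
      simp only [Function.comp, show 3 * m / 3 = m by omega]
  · rw [filter_eq, tendsto_map'_iff]
    refine tendsto_of_tendsto_of_tendsto_of_le_of_le' hlim tendsto_const_nhds ?_
      (Eventually.of_forall fun m => ?_)
    · filter_upwards [hN] with m ht using h2 _ m rfl ht
    · refine div_le_one_of_le₀ ?_ (Nat.cast_nonneg _)
      exact_mod_cast Finite.card_subtype_le _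

end Pool.Agent.Results.MP_81e6aa_pr.SmallBudget
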